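import Mathlib
import Pool.Agent.Helper398.EEFinal

/-!
# Selfridge's question on zero-sum-free sets modulo an even number, for large moduli
-/

set_option autoImplicit false

open Finset

namespace Pool.Agent.Results.MP_02fec8_nt.LargeEvenModuli

/-- A set `S` of residue classes modulo `m` is zero-sum-free if no nonempty subset of `S` has
sum zero. -/
def ZeroSumFree (m : ℕ) (S : Finset (ZMod m)) : Prop :=
  ∀ T ⊆ S, T.Nonempty → ∑ t ∈ T, t ≠ 0

/-- `k(m)`: the largest cardinality of a zero-sum-free set of residues modulo `m` (`m ≥ 1`). -/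
noncomputable def k (m : ℕ) : ℕ := sSup {n | ∃ S : Finset (ZMod m), ZeroSumFree m S ∧ S.card = n}

/-- `A_l = {1, …, l} ∪ {m/2, m/2 + 1, …, m/2 + l}`. -/
def setA (m l : ℕ) : Finset (ZMod m) :=
  (Finset.Icc 1 l).image (fun i : ℕ => (i : ZMod m)) ∪
    (Finset.range (l + 1)).image (fun i : ℕ => ((m / 2 + i : ℕ) : ZMod m))

/-- `B_l = A_l \ {l}`. -/
def setB (m l : ℕ) : Finset (ZMod m) := setA m l \ {(l : ZMod m)}

/-- `s(m)`: the largest cardinality of a zero-sum-free set among the `A_l` and `B_l` with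
`1 ≤ l < m / 2`. -/
noncomputable def s (m : ℕ) : ℕ :=
  sSup {n | ∃ l : ℕ, 1 ≤ l ∧ l < m / 2 ∧ ∃ S : Finset (ZMod m), (S = setA m l ∨ S = setB m l) ∧
    ZeroSumFree m S ∧ S.card = n}

theorem bddAbove_k (m : ℕ) (hm : m ≠ 0) :
    BddAbove {n | ∃ S : Finset (ZMod m), ZeroSumFree m S ∧ S.card = n} := by
  have : NeZero m := ⟨hm⟩
  refine ⟨m, ?_⟩
  rintro n ⟨T, _, rfl⟩
  have h := Finset.card_le_univ T
  rwa [ZMod.card] at h

theorem zsf_of_weight (m h : ℕ) (hh : 0 < h) (hm : m = 2 * h) (S : Finset (ZMod m))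
    (h0 : ∀ x ∈ S, x ≠ 0) (hw : ∑ x ∈ S, x.val % h < h) : ZeroSumFree m S := by
  have : NeZero m := ⟨by omega⟩
  intro T hT hne hs
  have h1 : ((∑ b ∈ T, b.val : ℕ) : ZMod m) = 0 := by
    rw [← hs]
    push_cast
    exact Finset.sum_congr rfl (fun b _ => ZMod.natCast_zmod_val b)
  rw [ZMod.natCast_eq_zero_iff] at h1
  have h2 : h ∣ ∑ b ∈ T, b.val := dvd_trans ⟨2, by omega⟩ h1
  have h3 : (∑ b ∈ T, b.val % h) % h = 0 := by
    rw [← Finset.sum_nat_mod]
    exact Nat.mod_eq_zero_of_dvd h2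
  have h4 : ∑ b ∈ T, b.val % h ≤ ∑ b ∈ S, b.val % h := Finset.sum_le_sum_of_subset hT
  have h5 : ∑ b ∈ T, b.val % h = 0 := by
    rw [Nat.mod_eq_of_lt (by omega)] at h3
    exact h3
  have h6 : ∀ b ∈ T, b.val = h := by
    intro b hb
    have h7 : b.val % h = 0 := (Finset.sum_eq_zero_iff.1 h5) b hb
    have h8 : b.val < m := ZMod.val_lt b
    have h9 : b.val ≠ 0 := fun hc => h0 b (hT hb) ((ZMod.val_eq_zero b).1 hc)
    obtain ⟨c, hc⟩ := Nat.dvd_of_mod_eq_zero h7
    have h10 : c < 2 := by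
      by_contra h11
      have : h * 2 ≤ h * c := Nat.mul_le_mul_left _ (by omega)
      omega
    have h11 : c ≠ 0 := by
      rintro rfl
      rw [mul_zero] at hc
      exact h9 hc
    have h12 : c = 1 := by omega
    rw [hc, h12, mul_one]
  obtain ⟨b, hb⟩ := hne
  have h7 : T = {b} := by
    rw [Finset.eq_singleton_iff_unique_mem]
    refine ⟨hb, fun x hx => ?_⟩
    apply ZMod.val_injective m
    rw [h6 x hx, h6 b hb]
  rw [h7, Finset.sum_singleton] at hs
  exact h0 b (hT hb) hs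

theorem val_small (m i : ℕ) (hi : i < m) : ((i : ℕ) : ZMod m).val = i := ZMod.val_natCast_of_lt hi

theorem setA_facts (m h l : ℕ) (hm : m = 2 * h) (hl : l < h) :
    (setA m l).card = 2 * l + 1 ∧ (∀ x ∈ setA m l, x ≠ 0) ∧
      ∑ x ∈ setA m l, x.val % h ≤ l * (l + 1) := by
  have : NeZero m := ⟨by omega⟩
  have hm2 : m / 2 = h := by omega
  have hv1 : ∀ i ∈ Finset.Icc 1 l, ((i : ℕ) : ZMod m).val = i := by
    intro i hi
    rw [Finset.mem_Icc] at hi
    exact val_small m i (by omega)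
  have hv2 : ∀ i ∈ Finset.range (l + 1), ((m / 2 + i : ℕ) : ZMod m).val = h + i := by
    intro i hi
    rw [Finset.mem_range] at hi
    rw [hm2]
    exact val_small m (h + i) (by omega)
  have hinj1 : Set.InjOn (fun i : ℕ => (i : ZMod m)) (Finset.Icc 1 l : Finset ℕ) := by
    intro a ha b hb hab
    have h1 := hv1 a ha
    have h2 := hv1 b hb
    have h3 : (a : ZMod m) = (b : ZMod m) := hab
    rw [← h1, ← h2, h3]
  have hinj2 : Set.InjOn (fun i : ℕ => ((m / 2 + i : ℕ) : ZMod m))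
      (Finset.range (l + 1) : Finset ℕ) := by
    intro a ha b hb hab
    have h1 := hv2 a ha
    have h2 := hv2 b hb
    have h3 : ((m / 2 + a : ℕ) : ZMod m) = ((m / 2 + b : ℕ) : ZMod m) := hab
    rw [h3] at h1
    omega
  have hdisj : Disjoint ((Finset.Icc 1 l).image (fun i : ℕ => (i : ZMod m)))
      ((Finset.range (l + 1)).image (fun i : ℕ => ((m / 2 + i : ℕ) : ZMod m))) := by
    rw [Finset.disjoint_left]
    intro x hx hx2
    rw [Finset.mem_image] at hx hx2
    obtain ⟨i, hi, rfl⟩ := hx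
    obtain ⟨j, hj, hij⟩ := hx2
    have h1 := hv1 i hi
    have h2 := hv2 j hj
    rw [hij, h1] at h2
    rw [Finset.mem_Icc] at hi
    omega
  refine ⟨?_, ?_, ?_⟩
  · unfold setA
    rw [Finset.card_union_of_disjoint hdisj, Finset.card_image_of_injOn hinj1,
      Finset.card_image_of_injOn hinj2, Nat.card_Icc, Finset.card_range]
    omega
  · intro x hx hx0
    unfold setA at hx
    rw [Finset.mem_union, Finset.mem_image, Finset.mem_image] at hx
    rcases hx with ⟨i, hi, rfl⟩ | ⟨i, hi, rfl⟩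
    · have h1 := hv1 i hi
      rw [hx0, ZMod.val_zero] at h1
      rw [Finset.mem_Icc] at hi
      omega
    · have h1 := hv2 i hi
      rw [hx0, ZMod.val_zero] at h1
      omega
  · unfold setA
    rw [Finset.sum_union hdisj, Finset.sum_image hinj1, Finset.sum_image hinj2]
    have e1 : ∑ i ∈ Finset.Icc 1 l, ((i : ℕ) : ZMod m).val % h = ∑ i ∈ Finset.Icc 1 l, i := by
      apply Finset.sum_congr rfl
      intro i hi
      rw [hv1 i hi]
      rw [Finset.mem_Icc] at hi
      exact Nat.mod_eq_of_lt (by omega)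
    have e2 : ∑ i ∈ Finset.range (l + 1), ((m / 2 + i : ℕ) : ZMod m).val % h =
        ∑ i ∈ Finset.range (l + 1), i := by
      apply Finset.sum_congr rfl
      intro i hi
      rw [hv2 i hi]
      rw [Finset.mem_range] at hi
      rw [Nat.add_mod_left]
      exact Nat.mod_eq_of_lt (by omega)
    rw [e1, e2]
    have h3 : ∑ i ∈ Finset.Icc 1 l, i ≤ ∑ i ∈ Finset.range (l + 1), i := by
      apply Finset.sum_le_sum_of_subset
      intro i hi
      rw [Finset.mem_Icc] at hi
      rw [Finset.mem_range]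
      omega
    have h4 := Finset.sum_range_id_mul_two (l + 1)
    have h5 : (l + 1) * (l + 1 - 1) = l * (l + 1) := by rw [Nat.add_sub_cancel]; ring
    omega

theorem setB_facts (m h l : ℕ) (hm : m = 2 * h) (hl1 : 1 ≤ l) (hl : l < h) :
    (setB m l).card = 2 * l ∧ (∀ x ∈ setB m l, x ≠ 0) ∧
      ∑ x ∈ setB m l, x.val % h ≤ l * l := by
  obtain ⟨h1, h2, h3⟩ := setA_facts m h l hm hl
  have hmem : (l : ZMod m) ∈ setA m l := by
    unfold setA
    rw [Finset.mem_union]
    left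
    rw [Finset.mem_image]
    exact ⟨l, Finset.mem_Icc.2 ⟨hl1, le_rfl⟩, rfl⟩
  have hB : setB m l = (setA m l).erase (l : ZMod m) := by
    unfold setB
    rw [Finset.sdiff_singleton_eq_erase]
  rw [hB]
  refine ⟨?_, ?_, ?_⟩
  · rw [Finset.card_erase_of_mem hmem, h1]
    omega
  · intro x hx
    exact h2 x (Finset.erase_subset _ _ hx)
  · have h4 := Finset.sum_erase_add (setA m l) (fun x => x.val % h) hmem
    have h5 : ((l : ℕ) : ZMod m).val % h = l := by
      rw [val_small m l (by omega)]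
      exact Nat.mod_eq_of_lt hl
    simp only [h5] at h4
    have h6 : l * (l + 1) = l * l + l := by ring
    omega

/-- the lower bound for `s(m)` -/
theorem exists_set (m h : ℕ) (hm : m = 2 * h) (hh : 3 ≤ h) :
    ∃ l : ℕ, 1 ≤ l ∧ l < m / 2 ∧ ∃ S : Finset (ZMod m), (S = setA m l ∨ S = setB m l) ∧
      ZeroSumFree m S ∧ S.card = Nat.sqrt (2 * m - 3) := by
  obtain ⟨K, hK⟩ : ∃ K, K = Nat.sqrt (2 * m - 3) := ⟨_, rfl⟩
  have hK1 : K * K ≤ 2 * m - 3 := by rw [hK]; exact Nat.sqrt_le _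
  have hK3 : 3 ≤ K := by
    rw [hK, Nat.le_sqrt]
    omega
  rw [← hK]
  rcases Nat.even_or_odd' K with ⟨l, hl | hl⟩
  · have h1 : l * l < h := by
      have : K * K = 4 * (l * l) := by rw [hl]; ring
      omega
    have h2 : l < h := lt_of_le_of_lt (Nat.le_mul_self l) h1
    obtain ⟨f1, f2, f3⟩ := setB_facts m h l hm (by omega) h2
    exact ⟨l, by omega, by omega, setB m l, Or.inr rfl,
      zsf_of_weight m h (by omega) hm _ f2 (by omega), by omega⟩
  · have h1 : l * (l + 1) < h := by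
      have : K * K = 4 * (l * (l + 1)) + 1 := by rw [hl]; ring
      omega
    have h2 : l < h := by nlinarith
    obtain ⟨f1, f2, f3⟩ := setA_facts m h l hm h2
    exact ⟨l, by omega, by omega, setA m l, Or.inl rfl,
      zsf_of_weight m h (by omega) hm _ f2 (by omega), by omega⟩

/-- the upper bound for `k(m)`, for all large `m` -/
theorem upper : ∃ M : ℕ, ∀ m : ℕ, M ≤ m → k m ≤ Nat.sqrt (2 * m - 3) := by
  obtain ⟨M, hM⟩ := Pool.Agent.Helper398.main_exact
  refine ⟨M * M + 3, ?_⟩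
  intro m hm
  have : NeZero m := ⟨by omega⟩
  apply csSup_le
  · exact ⟨0, ∅, by intro T hT hne; rw [Finset.subset_empty] at hT; subst hT; exact absurd hne (by simp), rfl⟩
  rintro n ⟨S, hS, rfl⟩
  rw [Nat.le_sqrt]
  by_cases hc : M ≤ S.card
  · have h1 := hM (ZMod m) S hS hc
    have h2 := Finset.card_le_univ S.subsetSum
    rw [ZMod.card] at h2
    have h3 : S.card ^ 2 = S.card * S.card := sq _
    omega
  · have h1 : S.card * S.card ≤ M * M := Nat.mul_le_mul (by omega) (by omega)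
    omega

/-- (1) `k(m) = s(m) = ⌊√(2m - 3)⌋` for all sufficiently large even `m`.
(2) `s(m) ≥ ⌊√(2m - 3)⌋` for all even `m ≥ 6`, and `k(m) ≤ ⌊√(2m - 3)⌋` for all sufficiently large
`m`, even or odd. (3) So there are only finitely many even `m` with `k(m) ≠ s(m)`. -/
theorem result :
    (∃ M : ℕ, ∀ m : ℕ, M ≤ m → Even m → k m = s m ∧ s m = Nat.sqrt (2 * m - 3)) ∧
    (∀ m : ℕ, 6 ≤ m → Even m → Nat.sqrt (2 * m - 3) ≤ s m ∧ s m ≤ k m) ∧
    (∃ M : ℕ, ∀ m : ℕ, M ≤ m → k m ≤ Nat.sqrt (2 * m - 3)) ∧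
    {m : ℕ | 6 ≤ m ∧ Even m ∧ k m ≠ s m}.Finite := by
  have low : ∀ m : ℕ, 6 ≤ m → Even m → Nat.sqrt (2 * m - 3) ≤ s m ∧ s m ≤ k m := by
    intro m hm6 hme
    obtain ⟨h, hh⟩ := hme
    have hm : m = 2 * h := by omega
    have hex := exists_set m h hm (by omega)
    constructor
    · unfold s
      refine le_csSup ?_ ?_
      · obtain ⟨b, hb⟩ := bddAbove_k m (by omega)
        refine ⟨b, ?_⟩
        rintro n ⟨l, _, _, S, _, h1, h2⟩
        exact hb ⟨S, h1, h2⟩
      · exact hex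
    · unfold s
      refine csSup_le ?_ ?_
      · exact ⟨Nat.sqrt (2 * m - 3), hex⟩
      · rintro n ⟨l, _, _, S, _, h1, h2⟩
        exact le_csSup (bddAbove_k m (by omega)) ⟨S, h1, h2⟩
  have main : ∃ M : ℕ, ∀ m : ℕ, M ≤ m → Even m → k m = s m ∧ s m = Nat.sqrt (2 * m - 3) := by
    obtain ⟨M, hM⟩ := upper
    refine ⟨M + 6, fun m hm hme => ?_⟩
    have h1 := hM m (by omega)
    obtain ⟨h2, h3⟩ := low m (by omega) hme
    omega
  refine ⟨main, low, upper, ?_⟩
  obtain ⟨M, hM⟩ := main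
  apply (Set.finite_lt_nat M).subset
  rintro m ⟨_, hme, hne⟩
  by_contra hc
  exact hne (hM m (not_lt.1 hc) hme).1

end Pool.Agent.Results.MP_02fec8_nt.LargeEvenModuli
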